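import Pool.Agent.U168.SZ.Many
import Pool.Agent.TH876.FH.Ana
import Pool.Agent.Y729.FW.Surj

/-!
# Faltings heights of the Frey curves of good abc triples: the error term at the slope `1/2`
(helper951, for MP_c59389_nt, Q1)
-/

set_option autoImplicit false

open Filter Topology

namespace Pool.Agent.U951.FC

open Pool.Agent.H390R2 (rad IsABCTriple II)
open Pool.Agent.W270.Szp
open Pool.Agent.R417.MV (curve_of j_eq recover)
open Pool.Agent.TH876.FH (arch jInv)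

/-- The archimedean term is bounded below. -/
theorem arch_lower : ∃ C : ℝ, ∀ τ : UpperHalfPlane, -C ≤ arch τ := by
  obtain ⟨h1, -⟩ := Pool.Agent.TH876.FH.ana
  obtain ⟨c, hc⟩ := h1 1 one_pos
  refine ⟨|c|, fun τ => ?_⟩
  have h2 := hc τ
  have h3 : 0 ≤ Real.log (max ‖jInv τ‖ 1) := Real.log_nonneg (le_max_right _ _)
  have h4 := le_abs_self c
  have h5 := abs_nonneg c
  linarith

/-- The denominator of `c₄³ / Δ` if `c₄` and `Δ > 0` are coprime. -/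
theorem den_j {c d : ℤ} (hd : 0 < d) (h : IsCoprime c d) :
    (((c : ℚ) ^ 3 / (d : ℚ)).den : ℝ) = (d : ℝ) := by
  have h1 : Nat.Coprime (c ^ 3).natAbs d.natAbs :=
    Int.isCoprime_iff_gcd_eq_one.1 h.pow_left
  have h2 : (((c ^ 3 : ℤ) : ℚ) / (d : ℚ)).den = d.natAbs := by
    have := Rat.den_div_eq_of_coprime hd h1
    omega
  have h3 : ((c : ℚ) ^ 3 / (d : ℚ)) = (((c ^ 3 : ℤ) : ℚ) / (d : ℚ)) := by push_cast; rfl
  rw [h3, h2]
  have : ((d.natAbs : ℕ) : ℝ) = ((d.natAbs : ℤ) : ℝ) := by simp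
  rw [this, Int.natCast_natAbs, abs_of_pos hd]

/-- The size of `c₄` of a Frey curve. -/
theorem c4_le {a b c : ℕ} {Y : ℝ} {x : ℤ} (h : IsABCTriple a b c) (hc : Real.log c ≤ Y)
    (hx : x = (c : ℤ) ^ 2 - a * b) : |(x : ℝ)| ^ 3 ≤ Real.exp (6 * Y) := by
  obtain ⟨ha0, hb0, hc0, hsum, -, -, -⟩ := h
  have ha' : (0 : ℝ) < a := by exact_mod_cast ha0
  have hb' : (0 : ℝ) < b := by exact_mod_cast hb0
  have hc' : (0 : ℝ) < c := by exact_mod_cast hc0
  have hs : (a : ℝ) + b = c := by exact_mod_cast hsum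
  have h1 : (x : ℝ) = (c : ℝ) ^ 2 - a * b := by rw [hx]; push_cast; ring
  have h2 : |(x : ℝ)| ≤ (c : ℝ) ^ 2 := by
    rw [h1, ← hs, abs_le]
    constructor <;> nlinarith [mul_pos ha' hb', sq_nonneg (a : ℝ), sq_nonneg (b : ℝ)]
  have h3 : (c : ℝ) ≤ Real.exp Y := by
    rw [← Real.log_le_iff_le_exp hc']; exact hc
  have h4 : Real.exp (6 * Y) = (Real.exp Y ^ 2) ^ 3 := by
    rw [← pow_mul, ← Real.exp_nat_mul]; norm_num
  rw [h4]
  gcongr
  exact h2.trans (by gcongr)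

/-- `many_frey` with some room in the constant `K`, up to and including `K + K' = 6.84`. -/
theorem many_room {K K' : ℝ} (hK : 0 < K) (hK' : 0 ≤ K') (h : K + K' ≤ 171 / 25) :
    ∃ ε : ℝ, 0 < ε ∧
    ∀ᶠ Y : ℝ in atTop, ∃ (T : Finset (ℕ × ℕ × ℕ)) (m q : ℕ), q.Prime ∧ m < q ∧
      Real.exp (K' * √Y / Real.log Y) ≤ T.card ∧
      ∀ t ∈ T, IsABCTriple t.1 t.2.1 t.2.2 ∧ 16 ∣ t.1 * t.2.1 * t.2.2 ∧ q ∣ t.1 ∧
        t.2.1.primeFactors ⊆ Nat.primesLE m ∧ t.2.2.primeFactors ⊆ Nat.primesLE m ∧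
        Real.log t.2.2 ≤ Y ∧
        (K + ε) * √Y / Real.log Y + 1 < (Real.log t.1 + Real.log t.2.1 + Real.log t.2.2) / 3 -
            Real.log (rad (t.1 * t.2.1 * t.2.2)) := by
  obtain ⟨st, hst⟩ := Pool.Agent.TH871.L1.G5.data.exists_state
  have hb := Pool.Agent.TH871.L1.G5.bound
  rw [← hst] at hb
  have hκ : 0 < st.κ := by
    rw [hst, Pool.Agent.TH871.L1.G5.val_P]
    positivity
  have hT0 : 0 < K + K' := by positivity
  have hlt : (K + K') ^ 2 * st.κ * Real.exp 1 < 32 := by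
    refine lt_of_le_of_lt ?_ hb
    have := Real.exp_pos 1
    gcongr
  obtain ⟨ε, hε0, hε⟩ : ∃ ε : ℝ, 0 < ε ∧
      ((K + ε) + (K' + ε)) ^ 2 * (st.κ + ε) * Real.exp 1 < 32 := by
    have hc : Continuous (fun ε : ℝ => ((K + ε) + (K' + ε)) ^ 2 * (st.κ + ε) * Real.exp 1) := by
      fun_prop
    have h1 : ∀ᶠ ε : ℝ in 𝓝 0, ((K + ε) + (K' + ε)) ^ 2 * (st.κ + ε) * Real.exp 1 < 32 := by
      refine (hc.tendsto 0).eventually_lt (tendsto_const_nhds (x := (32 : ℝ))) ?_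
      simpa using hlt
    obtain ⟨δ, hδ0, hδ⟩ := Metric.eventually_nhds_iff.mp h1
    refine ⟨δ / 2, by positivity, hδ ?_⟩
    rw [Real.dist_eq, sub_zero, abs_of_pos (by positivity)]
    linarith
  refine ⟨ε, hε0, ?_⟩
  have h2 := Pool.Agent.U168.SZ.many_frey' (by positivity : 0 < K + ε)
    (by positivity : 0 < K' + ε) (by positivity) (Pool.Agent.TH871.L1.lattice st hε0) hε
  filter_upwards [h2, eventually_ge_atTop (Real.exp 1)] with Y ⟨T, m, q, h3, h4, h5, h6⟩ hY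
  have hY0 : 0 < Y := lt_of_lt_of_le (Real.exp_pos 1) hY
  have hlY : 1 ≤ Real.log Y := by rw [Real.le_log_iff_exp_le hY0]; exact hY
  refine ⟨T, m, q, h3, h4, le_trans ?_ h5, h6⟩
  have : K' ≤ K' + ε := by linarith
  gcongr

open Classical in
/-- Many Frey curves with a large discriminant: the room in the constant is kept. -/
theorem curves_room {K K' : ℝ} (hK : 0 < K) (hK' : 0 ≤ K') (h : K + K' ≤ 171 / 25) :
    ∃ ε : ℝ, 0 < ε ∧ ∀ᶠ Y : ℝ in atTop, ∃ T : Finset (WeierstrassCurve ℤ),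
      Real.exp (K' * √Y / Real.log Y) ≤ T.card ∧
      (∀ W ∈ T, 0 < W.Δ ∧ IsCoprime W.c₄ W.Δ ∧
        (∃ r₁ r₂ r₃ : ℚ, ∀ x : ℚ,
          4 * x ^ 3 + W.b₂ * x ^ 2 + 2 * W.b₄ * x + W.b₆ = 4 * (x - r₁) * (x - r₂) * (x - r₃)) ∧
        (cond W : ℝ) ≤ Real.exp Y ∧
        (cond W : ℝ) ^ 6 * Real.exp (6 * (K + ε) * √Y / Real.log Y) < (W.Δ : ℝ) ∧
        (W.Δ : ℝ) ≤ Real.exp (6 * Y) ∧ |(W.c₄ : ℝ)| ^ 3 ≤ Real.exp (6 * Y)) ∧
      (∀ W ∈ T, ∀ W' ∈ T, W.c₄ ^ 3 * W'.Δ = W'.c₄ ^ 3 * W.Δ → W = W') := by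
  obtain ⟨ε, hε0, hε⟩ := many_room hK hK' h
  refine ⟨ε, hε0, ?_⟩
  filter_upwards [hε, eventually_ge_atTop (Real.exp 1)] with Y hX hY
  obtain ⟨T, m, q, hq, hmq, hT1, hT2⟩ := hX
  have hKε : 0 < K + ε := by positivity
  have hex : ∀ t : {t // t ∈ T}, ∃ W : WeierstrassCurve ℤ, 0 < W.Δ ∧ IsCoprime W.c₄ W.Δ ∧
      (∃ r₁ r₂ r₃ : ℚ, ∀ x : ℚ,
        4 * x ^ 3 + W.b₂ * x ^ 2 + 2 * W.b₄ * x + W.b₆ = 4 * (x - r₁) * (x - r₂) * (x - r₃)) ∧
      (cond W : ℝ) ≤ Real.exp Y ∧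
      (cond W : ℝ) ^ 6 * Real.exp (6 * (K + ε) * √Y / Real.log Y) < (W.Δ : ℝ) ∧
      (W.Δ : ℝ) ≤ Real.exp Y ^ 6 ∧
      W.c₄ = (t.1.2.2 : ℤ) ^ 2 - t.1.1 * t.1.2.1 ∧
      256 * W.Δ = ((t.1.1 * t.1.2.1 * t.1.2.2 : ℕ) : ℤ) ^ 2 := by
    rintro ⟨t, ht⟩
    obtain ⟨h1, h2, h3, h4, h5, h6, h7⟩ := hT2 t ht
    exact curve_of hKε hY h1 h2 h6 h7
  choose F hF using hex
  have hinj : ∀ t t' : {t // t ∈ T}, (F t).c₄ ^ 3 * (F t').Δ = (F t').c₄ ^ 3 * (F t).Δ →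
      t = t' := by
    intro t t' hj
    obtain ⟨p1, p2, -, -, -, -, p7, p8⟩ := hF t
    obtain ⟨r1, r2, -, -, -, -, r7, r8⟩ := hF t'
    obtain ⟨hc, hd⟩ := j_eq p2 r2 p1 r1 hj
    obtain ⟨h1, h2, h3, h4, h5, h6, h7⟩ := hT2 t.1 t.2
    obtain ⟨h1', h2', h3', h4', h5', h6', h7'⟩ := hT2 t'.1 t'.2
    rw [hd] at p8
    rw [p8] at r8
    rw [p7, r7] at hc
    have hprod : t.1.1 * t.1.2.1 * t.1.2.2 = t'.1.1 * t'.1.2.1 * t'.1.2.2 := by
      have : (t.1.1 * t.1.2.1 * t.1.2.2) ^ 2 = (t'.1.1 * t'.1.2.1 * t'.1.2.2) ^ 2 := by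
        exact_mod_cast r8
      exact (Nat.pow_left_injective (n := 2) (by norm_num)) this
    obtain ⟨a1, a2, a3⟩ := recover hq hmq h1 h1' h3 h4' hprod hc
    exact Subtype.ext (Prod.ext a1 (Prod.ext a2 a3))
  refine ⟨Finset.univ.image F, ?_, ?_, ?_⟩
  · have hFinj : Function.Injective F := by
      intro t t' htt
      exact hinj t t' (by rw [htt])
    rw [Finset.card_image_of_injective _ hFinj, Finset.card_univ, Fintype.card_coe]
    exact hT1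
  · intro W hW
    obtain ⟨t, _, rfl⟩ := Finset.mem_image.mp hW
    obtain ⟨p1, p2, p3, p4, p5, p6, p7, -⟩ := hF t
    obtain ⟨h1, -, -, -, -, h6, -⟩ := hT2 t.1 t.2
    refine ⟨p1, p2, p3, p4, p5, ?_, ?_⟩
    · refine p6.trans (le_of_eq ?_)
      rw [← Real.exp_nat_mul]
      norm_num
    · exact c4_le h1 h6 p7
  · intro W hW W' hW' hj
    obtain ⟨t, _, rfl⟩ := Finset.mem_image.mp hW
    obtain ⟨t', _, rfl⟩ := Finset.mem_image.mp hW'
    rw [hinj t t' hj]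

/-- the modular invariant of an integral Weierstrass equation -/
noncomputable def jI (W : WeierstrassCurve ℤ) : ℚ := (W.c₄ : ℚ) ^ 3 / W.Δ

/-- `12` times the stable Faltings height, at a period `τ` -/
noncomputable def ht (W : WeierstrassCurve ℤ) (τ : UpperHalfPlane) : ℝ :=
  Real.log ((jI W).den : ℝ) + arch τ

theorem norm_j (W : WeierstrassCurve ℤ) {τ : UpperHalfPlane} (h : jInv τ = ((jI W : ℚ) : ℂ)) :
    ‖jInv τ‖ = |(W.c₄ : ℝ)| ^ 3 / |(W.Δ : ℝ)| := by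
  rw [h]
  have h1 : ((jI W : ℚ) : ℂ) = (((jI W : ℚ) : ℝ) : ℂ) := by push_cast; rfl
  rw [h1, Complex.norm_real, Real.norm_eq_abs, jI]
  push_cast
  rw [abs_div, abs_pow]

/-- **Main theorem.** -/
theorem main {K K' : ℝ} (hK : 0 < K) (hK' : 0 ≤ K') (h : K + K' ≤ 171 / 25) :
    ∃ C : ℝ, ∀ c : ℝ, ∀ᶠ Y : ℝ in atTop, ∃ T : Finset (WeierstrassCurve ℤ),
      Real.exp (K' * √Y / Real.log Y) ≤ T.card ∧
      (∀ W ∈ T, 0 < W.Δ ∧ IsCoprime W.c₄ W.Δ ∧
        (∃ r₁ r₂ r₃ : ℚ, ∀ x : ℚ,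
          4 * x ^ 3 + W.b₂ * x ^ 2 + 2 * W.b₄ * x + W.b₆ = 4 * (x - r₁) * (x - r₂) * (x - r₃)) ∧
        Real.log (cond W) ≤ Y ∧
        (∃ τ, jInv τ = ((jI W : ℚ) : ℂ)) ∧
        ∀ τ, jInv τ = ((jI W : ℚ) : ℂ) →
          6 * Real.log (cond W) + 6 * K * √Y / Real.log Y + c ≤ ht W τ ∧ ht W τ ≤ 6 * Y + C) ∧
      (∀ W ∈ T, ∀ W' ∈ T, W.c₄ ^ 3 * W'.Δ = W'.c₄ ^ 3 * W.Δ → W = W') := by
  obtain ⟨C₁, hC₁⟩ := arch_lower
  obtain ⟨-, C₂, hC₂⟩ := Pool.Agent.TH876.FH.ana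
  obtain ⟨ε, hε0, hε⟩ := curves_room hK hK' h
  refine ⟨C₂, fun c => ?_⟩
  have hρ : Tendsto (fun Y : ℝ => 6 * ε * √Y / Real.log Y) atTop atTop := by
    have h1 : Tendsto (fun Y : ℝ => √Y / Real.log Y) atTop atTop := by
      have h2 : Tendsto (fun x : ℝ => x ^ (1 / 2 : ℝ) / Real.log x) atTop atTop := by
        have h3 := (isLittleO_log_rpow_atTop (show (0 : ℝ) < 1 / 2 by norm_num))
        have h4 : Tendsto (fun x : ℝ => Real.log x / x ^ (1 / 2 : ℝ)) atTop (𝓝 0) :=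
          h3.tendsto_div_nhds_zero
        have h5 : Tendsto (fun x : ℝ => Real.log x / x ^ (1 / 2 : ℝ)) atTop (𝓝[>] 0) := by
          refine tendsto_nhdsWithin_iff.2 ⟨h4, ?_⟩
          filter_upwards [eventually_gt_atTop (1 : ℝ)] with x hx
          exact div_pos (Real.log_pos hx) (by positivity)
        have h6 := h5.inv_tendsto_nhdsGT_zero
        refine h6.congr fun x => ?_
        simp only [Pi.inv_apply, inv_div]
      refine h2.congr fun x => ?_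
      rw [Real.sqrt_eq_rpow]
    have h2 := h1.const_mul_atTop (show (0 : ℝ) < 6 * ε by positivity)
    refine h2.congr fun x => ?_
    ring
  filter_upwards [hε, hρ.eventually_ge_atTop (c + C₁)] with Y ⟨T, hT1, hT2, hT3⟩ hY2
  refine ⟨T, hT1, fun W hW => ?_, hT3⟩
  obtain ⟨p1, p2, p3, p4, p5, p6, p7⟩ := hT2 W hW
  have hN : 0 < cond W := Finset.prod_pos fun p hp => (Nat.prime_of_mem_primeFactors hp).pos
  have hN' : (0 : ℝ) < cond W := by exact_mod_cast hN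
  have hΔ : (0 : ℝ) < (W.Δ : ℝ) := by exact_mod_cast p1
  have hden : Real.log ((jI W).den : ℝ) = Real.log (W.Δ : ℝ) := by
    rw [jI, den_j p1 p2]
  refine ⟨p1, p2, p3, ?_, Pool.Agent.Y729.FW.j_surj _, fun τ hτ => ?_⟩
  · rw [Real.log_le_iff_le_exp hN']; exact p4
  · have h1 := hC₁ τ
    have h2 : Real.log ((cond W : ℝ) ^ 6 * Real.exp (6 * (K + ε) * √Y / Real.log Y)) ≤
        Real.log (W.Δ : ℝ) := Real.log_le_log (by positivity) p5.le
    rw [Real.log_mul (by positivity) (Real.exp_ne_zero _), Real.log_pow, Real.log_exp] at h2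
    have h3 : 6 * (K + ε) * √Y / Real.log Y =
        6 * K * √Y / Real.log Y + 6 * ε * √Y / Real.log Y := by ring
    have h4 := hC₂ τ
    rw [norm_j W hτ, abs_of_pos hΔ] at h4
    have h5 : Real.log (max (|(W.c₄ : ℝ)| ^ 3 / (W.Δ : ℝ)) 1) + Real.log (W.Δ : ℝ) ≤ 6 * Y := by
      rw [← Real.log_mul (by positivity) hΔ.ne', max_mul_of_nonneg _ _ hΔ.le, one_mul,
        div_mul_cancel₀ _ hΔ.ne', Real.log_le_iff_le_exp (by positivity)]
      exact max_le p7 p6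
    refine ⟨?_, ?_⟩
    · rw [ht, hden]
      push_cast at h2
      linarith
    · rw [ht, hden]
      linarith

/-- `√x / log x` is increasing for `x ≥ e²` -/
theorem sqrt_div_log_mono {x y : ℝ} (hx : Real.exp 2 ≤ x) (hxy : x ≤ y) :
    √x / Real.log x ≤ √y / Real.log y := by
  have hy : Real.exp 2 ≤ y := hx.trans hxy
  have h1 := Real.log_div_sqrt_antitoneOn (Set.mem_Ici.2 hx) (Set.mem_Ici.2 hy) hxy
  have hx0 : 0 < x := (Real.exp_pos 2).trans_le hx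
  have hy0 : 0 < y := (Real.exp_pos 2).trans_le hy
  have hlx : 0 < Real.log x := by
    have : 2 ≤ Real.log x := (Real.le_log_iff_exp_le hx0).2 hx
    linarith
  have hly : 0 < Real.log y := by
    have : 2 ≤ Real.log y := (Real.le_log_iff_exp_le hy0).2 hy
    linarith
  have hsx : 0 < √x := Real.sqrt_pos.2 hx0
  have hsy : 0 < √y := Real.sqrt_pos.2 hy0
  simp only at h1
  rw [div_le_div_iff₀ hsy hsx] at h1
  rw [div_le_div_iff₀ hlx hly]
  linarith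

/-- The error term at the conductor `N`, if `log N ≤ Y`. -/
theorem err_le {N : ℕ} {Y : ℝ} (hN : Real.log N ≤ Y) (hY : 31 ≤ √Y / Real.log Y) :
    √(Real.log N) / Real.log (Real.log N) ≤ √Y / Real.log Y := by
  rcases Nat.lt_or_ge N 3 with h | h
  · have h1 : Real.log (Real.log N) ≤ 0 := by
      have h2 : Real.log N ≤ 1 := by
        have h3 : (N : ℝ) ≤ 2 := by exact_mod_cast Nat.lt_succ_iff.1 h
        rcases Nat.eq_zero_or_pos N with h0 | h0
        · rw [h0]; simp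
        · have h4 : (0 : ℝ) < N := by exact_mod_cast h0
          have := Real.log_le_log h4 h3
          have := Real.log_two_lt_d9
          linarith
      have h3 : 0 ≤ Real.log N := Real.log_natCast_nonneg N
      exact Real.log_nonpos h3 h2
    have h2 : √(Real.log N) / Real.log (Real.log N) ≤ 0 :=
      div_nonpos_of_nonneg_of_nonpos (Real.sqrt_nonneg _) h1
    linarith
  · have h3 : (3 : ℝ) ≤ N := by exact_mod_cast h
    have h4 : Real.log 3 ≤ Real.log N := Real.log_le_log (by norm_num) h3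
    have h5 : (1.0986 : ℝ) < Real.log 3 := by
      have := Real.log_three_gt_d9
      linarith
    rcases le_or_gt (Real.exp 2) (Real.log N) with h6 | h6
    · exact sqrt_div_log_mono h6 hN
    · have h7 : (0.0897 : ℝ) ≤ Real.log (Real.log N) := by
        have h8 := Real.one_sub_inv_le_log_of_pos (show (0 : ℝ) < Real.log N by linarith)
        have h9 : (Real.log N)⁻¹ ≤ (1.0986 : ℝ)⁻¹ := by
          gcongr
          linarith
        have h10 : (1.0986 : ℝ)⁻¹ ≤ 0.9103 := by norm_num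
        linarith
      have h8 : √(Real.log N) ≤ Real.exp 1 := by
        rw [Real.sqrt_le_left (Real.exp_pos 1).le, ← Real.exp_nat_mul]
        norm_num
        exact h6.le
      have h9 := Real.exp_one_lt_d9
      refine le_trans ?_ hY
      rw [div_le_iff₀ (by linarith)]
      nlinarith

theorem rho_tendsto : Tendsto (fun Y : ℝ => √Y / Real.log Y) atTop atTop := by
  have h2 : Tendsto (fun x : ℝ => x ^ (1 / 2 : ℝ) / Real.log x) atTop atTop := by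
    have h3 := (isLittleO_log_rpow_atTop (show (0 : ℝ) < 1 / 2 by norm_num))
    have h4 : Tendsto (fun x : ℝ => Real.log x / x ^ (1 / 2 : ℝ)) atTop (𝓝 0) :=
      h3.tendsto_div_nhds_zero
    have h5 : Tendsto (fun x : ℝ => Real.log x / x ^ (1 / 2 : ℝ)) atTop (𝓝[>] 0) := by
      refine tendsto_nhdsWithin_iff.2 ⟨h4, ?_⟩
      filter_upwards [eventually_gt_atTop (1 : ℝ)] with x hx
      exact div_pos (Real.log_pos hx) (by positivity)
    have h6 := h5.inv_tendsto_nhdsGT_zero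
    refine h6.congr fun x => ?_
    simp only [Pi.inv_apply, inv_div]
  refine h2.congr fun x => ?_
  rw [Real.sqrt_eq_rpow]

/-- the property of the curves of `main` which does not mention the heights -/
def Good (W : WeierstrassCurve ℤ) : Prop :=
  0 < W.Δ ∧ IsCoprime W.c₄ W.Δ ∧
    ∃ r₁ r₂ r₃ : ℚ, ∀ x : ℚ,
      4 * x ^ 3 + W.b₂ * x ^ 2 + 2 * W.b₄ * x + W.b₆ = 4 * (x - r₁) * (x - r₂) * (x - r₃)

/-- Infinitely many invariants, with the closed end `κ = 3.42`. -/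
theorem infinite_j {κ : ℝ} (hκ0 : 0 ≤ κ) (hκ : κ ≤ 171 / 50) (c : ℝ) :
    {j : ℚ | ∃ W : WeierstrassCurve ℤ, jI W = j ∧ Good W ∧ (∃ τ, jInv τ = ((jI W : ℚ) : ℂ)) ∧
      ∀ τ, jInv τ = ((jI W : ℚ) : ℂ) →
        6 * Real.log (cond W) + 12 * κ * (√(Real.log (cond W)) / Real.log (Real.log (cond W))) + c
          ≤ ht W τ}.Infinite := by
  intro hfin
  obtain ⟨C₂, hC₂⟩ := Pool.Agent.TH876.FH.ana.2
  -- the heights at the finitely many invariants are bounded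
  obtain ⟨M, hM⟩ : ∃ M : ℝ, ∀ j ∈ {j : ℚ | ∃ W : WeierstrassCurve ℤ, jI W = j ∧ Good W ∧
      (∃ τ, jInv τ = ((jI W : ℚ) : ℂ)) ∧
      ∀ τ, jInv τ = ((jI W : ℚ) : ℂ) →
        6 * Real.log (cond W) + 12 * κ * (√(Real.log (cond W)) / Real.log (Real.log (cond W))) + c
          ≤ ht W τ}, Real.log (j.den : ℝ) + Real.log (max ‖((j : ℚ) : ℂ)‖ 1) + C₂ ≤ M := by
    obtain ⟨M, hM⟩ := (hfin.image fun j : ℚ =>
      Real.log (j.den : ℝ) + Real.log (max ‖((j : ℚ) : ℂ)‖ 1) + C₂).bddAbove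
    exact ⟨M, fun j hj => hM (Set.mem_image_of_mem _ hj)⟩
  obtain ⟨C, hC⟩ := main (K := 171 / 25) (K' := 0) (by norm_num) le_rfl (by norm_num)
  have h1 := hC (max c (M + 1))
  obtain ⟨Y, ⟨T, hT1, hT2, -⟩, hY⟩ := (h1.and (rho_tendsto.eventually_ge_atTop 31)).exists
  have hTne : T.Nonempty := by
    rw [← Finset.card_pos]
    have : (1 : ℝ) ≤ T.card := by
      refine le_trans (le_of_eq ?_) hT1
      simp
    exact_mod_cast this
  obtain ⟨W, hW⟩ := hTne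
  obtain ⟨p1, p2, p3, p4, ⟨τ, hτ⟩, p6⟩ := hT2 W hW
  have hlN : 0 ≤ Real.log (cond W : ℝ) := Real.log_natCast_nonneg _
  have herr := err_le p4 hY
  have hmem : jI W ∈ {j : ℚ | ∃ W : WeierstrassCurve ℤ, jI W = j ∧ Good W ∧
      (∃ τ, jInv τ = ((jI W : ℚ) : ℂ)) ∧
      ∀ τ, jInv τ = ((jI W : ℚ) : ℂ) →
        6 * Real.log (cond W) + 12 * κ * (√(Real.log (cond W)) / Real.log (Real.log (cond W))) + c
          ≤ ht W τ} := by
    refine ⟨W, rfl, ⟨p1, p2, p3⟩, ⟨τ, hτ⟩, fun τ' hτ' => ?_⟩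
    have h2 := (p6 τ' hτ').1
    have h3 : 6 * (171 / 25 : ℝ) * √Y / Real.log Y = 12 * (171 / 50) * (√Y / Real.log Y) := by ring
    have h4 := le_max_left c (M + 1)
    set e := √(Real.log (cond W : ℝ)) / Real.log (Real.log (cond W : ℝ)) with he
    set E := √Y / Real.log Y with hE
    have h5 : κ * e ≤ 171 / 50 * E := by
      nlinarith [mul_le_mul_of_nonneg_left herr hκ0]
    linarith
  have h2 := hM _ hmem
  have h3 := (p6 τ hτ).1
  have h4 := hC₂ τ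
  have h5 := le_max_right c (M + 1)
  have h6 : (0 : ℝ) ≤ 6 * (171 / 25 : ℝ) * √Y / Real.log Y := by
    have : (0 : ℝ) ≤ √Y / Real.log Y := by linarith
    have h7 : 6 * (171 / 25 : ℝ) * √Y / Real.log Y = 6 * (171 / 25) * (√Y / Real.log Y) := by ring
    rw [h7]; positivity
  rw [ht] at h3
  rw [hτ] at h4
  linarith

end Pool.Agent.U951.FC
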